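import Pool.Agent.DB.B.Up

/-!
# Project DB (MP_db294d_gt), module DB-B-Cell: cuts and cells

`<` is a linear order on `V` (only used to orient the edges of `G`). The door links belong to the
smaller side; an edge of `A` is a cut if it joins a door link of `a b`, `a < b`, to a link on the
`b`-side.

PROOF PLAN.
`exists_cell`: define `cell s` as follows: if `s` is a door link of some `a b` with `a < b`, then
`a` (unique by `door_unique`); otherwise take any position `At s a b τ` (`surj`) and put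
`cell s = if τ < c a b then a else b`. Independent of the choice: for a link without doors, a
position `At s a b τ` and another one `At s a' b' τ'`: by `side_of`, `τ < c a b - η` or
`τ > c a b + η`; say (exchange `a, b` with `at_symm` if necessary) `τ > c a b + η`, so the first
choice gives `b`. By `hclose` at the coordinate `b` (`|τ - (coordinate of the second position at
b)| ≤ η`), the coordinate of the second position at `b` is `≥ c a b > 0`, so `b ∈ {a', b'}`; say
`b = b'` (else exchange by `at_symm`), `τ' ≥ τ - η > c a b ≥ 1/4`. If `a' = a`: `τ' > c a b`, cell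
`b`. If `a' ≠ a`: the coordinate at `a` of the second position is `0`, so `1 - τ ≤ η`, hence
`τ' ≥ 1 - 2η > 3/4 ≥ c a' b`: cell `b`. Now:
(1) `cell` of a non-door link at `At s a b τ`: `τ > c a b → cell s = b`; with `at_symm` the other
case.
(2) non-cut adjacent links have the same cell: realise the edge by `hreal`: positions `τ` and
`τ + 1/n` on `a b` (`1/n ≤ η`). WLOG `a < b` (otherwise use `at_symm` for both). Both non-door: the
door `c a b` is not between them (`side_of` for both; `τ < c - η` and `τ + 1/n > c + η` impossible):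
the same cell. One of them, `s`, is a door link: of `a b` by `door_of_at`: `cell s = a`. The other
one: door link: `cell = a`; not a door link: `Hi _ b a` (then `cell = a`) or `Hi _ a b` (then the
edge is a cut).
(3) cut edges: `cell s = a`, `cell s' = b`.
-/

namespace Pool.Agent.DB

open Set

namespace Disc

variable {V W S : Type} [Fintype V] [DecidableEq V] [Fintype W] [Fintype S] (D : Disc V W S)

private theorem seg_apply {V : Type} [DecidableEq V] (a b v : V) (τ : ℝ) :
    ((1 - τ) • (ev a : V → ℝ) + τ • (ev b : V → ℝ)) v =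
      (1 - τ) * (if v = a then 1 else 0) + τ * (if v = b then 1 else 0) := by
  simp [ev, Pi.single_apply]

private theorem no_door_hi {s : S} {a b : V} (h : D.Hi s a b) : ∀ x y, ¬ D.Door s x y := by
  intro x y hd
  obtain ⟨τ, hτ, _⟩ := h.2
  rcases D.door_of_at hτ hd with ⟨h1, h2⟩ | ⟨h1, h2⟩
  · rw [h1, h2] at hd
    exact h.1 hd
  · rw [h1, h2] at hd
    exact h.1 (D.door_symm hd)

/-- `s` has a position on the side of `x` -/
private def Cel (s : S) (x : V) : Prop := ∃ a τ, D.At s a x τ ∧ D.c a x < τ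

private theorem cel_unique {s : S} {x y : V} (hs : ∀ a b, ¬ D.Door s a b) (hx : D.Cel s x)
    (hy : D.Cel s y) : x = y := by
  obtain ⟨a, τ, h1, h2⟩ := hx
  obtain ⟨b, τ', h3, h4⟩ := hy
  by_contra hxy
  have hη := D.hη
  have h5 : D.c a x + D.η < τ := by
    rcases D.side_of h1 (hs a x) with ⟨_, h⟩ | ⟨_, h⟩
    · exact h
    · linarith
  have h6 : D.c b y + D.η < τ' := by
    rcases D.side_of h3 (hs b y) with ⟨_, h⟩ | ⟨_, h⟩
    · exact h
    · linarith
  have hax : a ≠ x := (D.at_adj h1).ne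
  have hby : b ≠ y := (D.at_adj h3).ne
  have hc1 := (D.c_mem a x).1
  have hc2 := (D.c_mem b y).1
  obtain ⟨w, w', t, hw, ht, hi, rfl, rfl, rfl⟩ := h1
  obtain ⟨z, z', t', hz, ht', hi', rfl, rfl, rfl⟩ := h3
  have h7 := D.hclose w w' z z' hw hz t t' ht ht' (by rw [hi, hi'])
  have hX := (dist_le_pi_dist _ _ (D.lab w')).trans h7
  have hY := (dist_le_pi_dist _ _ (D.lab z')).trans h7
  rw [seg_apply, seg_apply, Real.dist_eq, abs_le] at hX hY
  rw [if_neg (Ne.symm hax), if_pos rfl, if_neg hxy] at hX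
  rw [if_neg (Ne.symm hby), if_pos rfl, if_neg (Ne.symm hxy)] at hY
  have h8 : D.lab w' = D.lab z := by
    by_contra hne
    rw [if_neg hne] at hX
    linarith [hX.1, hX.2]
  have h9 : D.lab z' = D.lab w := by
    by_contra hne
    rw [if_neg hne] at hY
    linarith [hY.1, hY.2]
  rw [if_pos h8] at hX
  rw [← h8, h9, D.c_symm] at h6
  linarith [hX.1, hX.2]

private theorem cel_hi {s : S} {a b : V} {τ : ℝ} (h : D.At s a b τ) (h1 : D.c a b < τ) :
    D.Cel s b := ⟨a, τ, h, h1⟩

private theorem cel_lo {s : S} {a b : V} {τ : ℝ} (h : D.At s a b τ) (h1 : τ < D.c a b) :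
    D.Cel s a := ⟨b, 1 - τ, D.at_symm h, by rw [D.c_symm]; linarith⟩

private theorem cel_exists {s : S} (hs : ∀ a b, ¬ D.Door s a b) : ∃ x, D.Cel s x := by
  obtain ⟨w, w', t, hw, ht, hi⟩ := D.surj s
  have h1 : D.At s (D.lab w) (D.lab w') ((t : ℝ) / D.n) := ⟨w, w', t, hw, ht, hi, rfl, rfl, rfl⟩
  have hη := D.hη
  rcases D.side_of h1 (hs _ _) with ⟨_, h⟩ | ⟨_, h⟩
  · exact ⟨_, D.cel_hi h1 (by linarith)⟩
  · exact ⟨_, D.cel_lo h1 (by linarith)⟩

/-- the cuts: edges of `A` from a door link of `a b` to the `b`-side, `a < b` -/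
def cuts [LinearOrder V] : Set (Sym2 S) :=
  {e | ∃ a b s s', a < b ∧ D.Door s a b ∧ D.Hi s' a b ∧ D.A.Adj s s' ∧ e = s(s, s')}

theorem exists_cell [LinearOrder V] : ∃ cell : S → V,
    (∀ s a b, a < b → D.Door s a b → cell s = a) ∧
    (∀ s a b τ, (∀ a b, ¬ D.Door s a b) → D.At s a b τ → D.c a b < τ → cell s = b) ∧
    (∀ s a b τ, (∀ a b, ¬ D.Door s a b) → D.At s a b τ → τ < D.c a b → cell s = a) ∧
    (∀ s s', D.A.Adj s s' → s(s, s') ∉ D.cuts → cell s = cell s') ∧
    (∀ a b s s', a < b → D.Door s a b → D.Hi s' a b → cell s = a ∧ cell s' = b) := by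
  classical
  have hη := D.hη
  have hex : ∀ s : S, ∃ x : V, (∀ a b, a < b → D.Door s a b → x = a) ∧
      ((∀ a b, ¬ D.Door s a b) → D.Cel s x) := by
    intro s
    by_cases h : ∃ a b, a < b ∧ D.Door s a b
    · obtain ⟨a, b, hab, hd⟩ := h
      refine ⟨a, fun a' b' hab' hd' => ?_, fun hn => absurd hd (hn a b)⟩
      rcases D.door_unique hd hd' with ⟨h1, _⟩ | ⟨h1, h2⟩
      · exact h1.symm
      · rw [h1, h2] at hab'
        exact absurd hab' (not_lt.2 hab.le)
    · by_cases hn : ∀ a b, ¬ D.Door s a b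
      · obtain ⟨x, hx⟩ := D.cel_exists hn
        exact ⟨x, fun a b _ hd => absurd hd (hn a b), fun _ => hx⟩
      · push Not at hn
        obtain ⟨a, b, hd⟩ := hn
        have hne : a ≠ b := by
          obtain ⟨τ, hτ, _⟩ := hd
          exact (D.at_adj hτ).ne
        rcases lt_or_gt_of_ne hne with hlt | hlt
        · exact absurd ⟨a, b, hlt, hd⟩ h
        · exact absurd ⟨b, a, hlt, D.door_symm hd⟩ h
  choose cell hc1 hc2 using hex
  have P2 : ∀ s a b τ, (∀ a b, ¬ D.Door s a b) → D.At s a b τ → D.c a b < τ → cell s = b :=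
    fun s a b τ hn h1 h2 => D.cel_unique hn (hc2 s hn) (D.cel_hi h1 h2)
  have P3 : ∀ s a b τ, (∀ a b, ¬ D.Door s a b) → D.At s a b τ → τ < D.c a b → cell s = a :=
    fun s a b τ hn h1 h2 => D.cel_unique hn (hc2 s hn) (D.cel_lo h1 h2)
  have hdo : ∀ s a b τ, D.At s a b τ → (∃ x y, D.Door s x y) → D.Door s a b := by
    rintro s a b τ h ⟨x, y, hd⟩
    rcases D.door_of_at h hd with ⟨h1, h2⟩ | ⟨h1, h2⟩
    · rwa [h1, h2] at hd
    · rw [h1, h2] at hd
      exact D.door_symm hd
  have P4 : ∀ s s' a b τ τ', a < b → D.At s a b τ → D.At s' a b τ' → |τ - τ'| ≤ D.η →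
      D.A.Adj s s' → s(s, s') ∉ D.cuts → cell s = cell s' := by
    intro s s' a b τ τ' hab h1 h2 hττ hadj hcut
    rw [abs_le] at hττ
    by_cases hd : D.Door s a b
    · by_cases hd' : D.Door s' a b
      · rw [hc1 s a b hab hd, hc1 s' a b hab hd']
      · rcases D.side_of h2 hd' with ⟨h3, h4⟩ | ⟨h3, h4⟩
        · exact absurd ⟨a, b, s, s', hab, hd, h3, hadj, rfl⟩ hcut
        · rw [hc1 s a b hab hd, P3 s' a b τ' (D.no_door_hi h3) h2 (by linarith)]
    · by_cases hd' : D.Door s' a b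
      · rcases D.side_of h1 hd with ⟨h3, h4⟩ | ⟨h3, h4⟩
        · exact absurd ⟨a, b, s', s, hab, hd', h3, hadj.symm, Sym2.eq_swap⟩ hcut
        · rw [hc1 s' a b hab hd', P3 s a b τ (D.no_door_hi h3) h1 (by linarith)]
      · rcases D.side_of h1 hd with ⟨h3, h4⟩ | ⟨h3, h4⟩
        · rcases D.side_of h2 hd' with ⟨h5, h6⟩ | ⟨h5, h6⟩
          · rw [P2 s a b τ (D.no_door_hi h3) h1 (by linarith),
              P2 s' a b τ' (D.no_door_hi h5) h2 (by linarith)]
          · linarith [hττ.1, hττ.2]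
        · rcases D.side_of h2 hd' with ⟨h5, h6⟩ | ⟨h5, h6⟩
          · linarith [hττ.1, hττ.2]
          · rw [P3 s a b τ (D.no_door_hi h3) h1 (by linarith),
              P3 s' a b τ' (D.no_door_hi h5) h2 (by linarith)]
  refine ⟨cell, hc1, P2, P3, ?_, ?_⟩
  · intro s s' hadj hcut
    obtain ⟨w, w', t, hw, ht, hi, hi'⟩ := D.hreal s s' hadj
    have h1 : D.At s (D.lab w) (D.lab w') ((t : ℝ) / D.n) :=
      ⟨w, w', t, hw, ht.le, hi, rfl, rfl, rfl⟩
    have h2 : D.At s' (D.lab w) (D.lab w') (((t + 1 : ℕ) : ℝ) / D.n) :=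
      ⟨w, w', t + 1, hw, ht, hi', rfl, rfl, rfl⟩
    have hn : (0 : ℝ) < D.n := by exact_mod_cast D.hn
    have h3 : ((t + 1 : ℕ) : ℝ) / D.n - (t : ℝ) / D.n = 1 / D.n := by
      push_cast
      field_simp
      ring
    have h4 : 1 / (D.n : ℝ) ≤ D.η := by
      rw [div_le_iff₀ hn]
      exact D.hnη
    have h5 : 0 < 1 / (D.n : ℝ) := by positivity
    have hne : D.lab w ≠ D.lab w' := (D.at_adj h1).ne
    rcases lt_or_gt_of_ne hne with hlt | hlt
    · refine P4 s s' _ _ _ _ hlt h1 h2 ?_ hadj hcut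
      rw [abs_le]
      constructor <;> linarith
    · refine P4 s s' _ _ _ _ hlt (D.at_symm h1) (D.at_symm h2) ?_ hadj hcut
      rw [abs_le]
      constructor <;> linarith
  · intro a b s s' hab hd hhi
    refine ⟨hc1 s a b hab hd, ?_⟩
    obtain ⟨τ, hτ, hτ2⟩ := hhi.2
    exact P2 s' a b τ (D.no_door_hi hhi) hτ (by linarith)

/-- two adjacent links which are not door links are not joined by a cut -/
theorem not_cut [LinearOrder V] {s s' : S} (h1 : ∀ a b, ¬ D.Door s a b)
    (h2 : ∀ a b, ¬ D.Door s' a b) : s(s, s') ∉ D.cuts := by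
  rintro ⟨a, b, u, u', _, hd, _, _, he⟩
  rcases Sym2.eq_iff.1 he with ⟨h3, _⟩ | ⟨_, h4⟩
  · exact h1 a b (by rw [h3]; exact hd)
  · exact h2 a b (by rw [h4]; exact hd)

/-- two door links are not joined by a cut -/
theorem not_cut_door [LinearOrder V] {s s' : S} {a b : V} (h1 : D.Door s a b)
    (h2 : D.Door s' a b) : s(s, s') ∉ D.cuts := by
  rintro ⟨a', b', u, u', _, _, hh, _, he⟩
  rcases Sym2.eq_iff.1 he with ⟨_, h4⟩ | ⟨h3, _⟩
  · exact D.no_door_hi hh a b (by rw [← h4]; exact h2)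
  · exact D.no_door_hi hh a b (by rw [← h3]; exact h1)

/-- a door link and its neighbour on the small side are not joined by a cut -/
theorem not_cut_lo [LinearOrder V] {s s' : S} {a b : V} (hab : a < b) (h1 : D.Door s a b)
    (h2 : D.Hi s' b a) : s(s, s') ∉ D.cuts := by
  rintro ⟨a', b', u, u', hab', hd, hh, _, he⟩
  rcases Sym2.eq_iff.1 he with ⟨h3, h4⟩ | ⟨h3, h4⟩
  · rw [← h3] at hd
    rw [← h4] at hh
    rcases D.door_unique h1 hd with ⟨h5, h6⟩ | ⟨h5, h6⟩
    · rw [h5, h6] at hh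
      exact D.hi_not_lo hh h2
    · rw [h5, h6] at hab'
      exact absurd hab' (not_lt.2 hab.le)
  · rw [← h4] at hd
    exact D.no_door_hi h2 a' b' hd

end Disc

end Pool.Agent.DB
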