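import Pool.Agent.DB.Defs

/-!
# Project DB (MP_db294d_gt), module DB-B-Choose: choice of the door of one edge

A finite set of real numbers (heights of the positions of the branch links on one edge) which is
covered by few short intervals misses a long interval in `[1/4, 3/4]`.

PROOF PLAN. `T` is the set of the branch links (at most `N` of them, `T.card ≤ N`); each has its
positions in an interval of length `η` (any two differ by at most `η`). Consider the `N + 1` points
`c_j = 1/4 + 10 η j`, `j = 0, ..., N` (`10 η N ≤ 1/10`, so `c_j ∈ [1/4, 3/4]`). If every `c_j` had a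
bad position (of some link `s_j ∈ T`) within `3 η`, then by the pigeonhole principle two different
`j, j'` have the same link `s`, whose positions differ by at least `10 η - 6 η > η`: contradiction.
(`Finset.exists_ne_map_eq_of_card_lt_of_maps_to`.) If a link has no position on this edge it does no
harm.
-/

namespace Pool.Agent.DB

open Set

theorem choose_door {S : Type} (T : Finset S) (N : ℕ) (hT : T.card ≤ N) (η : ℝ) (hη : 0 < η)
    (hη1 : 100 * ((N : ℝ) + 1) * η ≤ 1) (pos : S → Set ℝ)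
    (hpos : ∀ s ∈ T, ∀ x ∈ pos s, ∀ y ∈ pos s, |x - y| ≤ η) :
    ∃ c : ℝ, 1 / 4 ≤ c ∧ c ≤ 3 / 4 ∧ ∀ s ∈ T, ∀ x ∈ pos s, 3 * η < |x - c| := by
  by_contra hcon
  push Not at hcon
  have hj : ∀ j : ℕ, ∃ s, ∃ x, j ≤ N → (s ∈ T ∧ x ∈ pos s ∧ |x - (1 / 4 + 10 * η * j)| ≤ 3 * η) := by
    intro j
    by_cases hjN : j ≤ N
    · have hjN' : (j : ℝ) ≤ N := by exact_mod_cast hjN
      have hj0 : (0 : ℝ) ≤ j := by positivity
      have h1 : η * j ≤ η * N := mul_le_mul_of_nonneg_left hjN' hη.le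
      have h0 : 0 ≤ η * j := by positivity
      obtain ⟨s, hs, x, hx, hsx⟩ := hcon (1 / 4 + 10 * η * j) (by nlinarith) (by nlinarith)
      exact ⟨s, x, fun _ => ⟨hs, hx, hsx⟩⟩
    · obtain ⟨s, hs, x, hx, hsx⟩ := hcon (1 / 4) le_rfl (by norm_num)
      exact ⟨s, x, fun h => absurd h hjN⟩
  choose f x hf using hj
  obtain ⟨j, hj, j', hj', hne, hff⟩ := Finset.exists_ne_map_eq_of_card_lt_of_maps_to
    (s := Finset.range (N + 1)) (t := T) (f := f) (by rw [Finset.card_range]; omega)
    (fun j hj => (hf j (Nat.lt_succ_iff.1 (Finset.mem_range.1 hj))).1)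
  have h1 := hf j (Nat.lt_succ_iff.1 (Finset.mem_range.1 hj))
  have h2 := hf j' (Nat.lt_succ_iff.1 (Finset.mem_range.1 hj'))
  rw [← hff] at h2
  have h3 := hpos (f j) h1.1 (x j) h1.2.1 (x j') h2.2.1
  have h4 : (1 : ℝ) ≤ |(j : ℝ) - j'| := by
    have h5 : (1 : ℤ) ≤ |(j : ℤ) - j'| := Int.one_le_abs (by omega)
    exact_mod_cast h5
  have h6 := abs_le.1 h1.2.2
  have h7 := abs_le.1 h2.2.2
  have h8 := abs_le.1 h3
  rcases le_abs.1 h4 with h | h
  · have : η * 1 ≤ η * ((j : ℝ) - j') := mul_le_mul_of_nonneg_left h hη.le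
    nlinarith [h6.1, h7.2, h8.2]
  · have : η * 1 ≤ η * (-((j : ℝ) - j')) := mul_le_mul_of_nonneg_left h hη.le
    nlinarith [h6.2, h7.1, h8.1]

end Pool.Agent.DB
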