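import Pool.Agent.DB.Tree.Contract

/-!
# Project DB (MP_db294d_gt), part B: the data of the discretisation

`i w w' t` (`w w'` adjacent in `H`, `0 ≤ t ≤ n`) is the vertex (link) of the tree `A` in which the
point with position `(1 - t/n) lab w + (t/n) lab w'` lies; one link has all its positions within `η`.
`c a b` is the height of the door of the edge `a b` of `G`, measured from `a`.
-/

namespace Pool.Agent.DB

open Set

structure Disc (V W S : Type) [Fintype V] [DecidableEq V] [Fintype W] [Fintype S] where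
  G : SimpleGraph V
  H : SimpleGraph W
  lab : H →g G
  A : SimpleGraph S
  n : ℕ
  η : ℝ
  i : W → W → ℕ → S
  i0 : W → S
  c : V → V → ℝ
  hG : G.IsTree
  hH : H.Connected
  hA : A.IsTree
  hn : 0 < n
  hη : 0 < η
  hη1 : 100 * η ≤ 1
  hnη : 1 ≤ η * n
  h0 : ∀ w w', H.Adj w w' → i w w' 0 = i0 w
  hsym : ∀ w w', H.Adj w w' → ∀ t, t ≤ n → i w' w t = i w w' (n - t)
  hstep : ∀ w w', H.Adj w w' → ∀ t, t < n →
      i w w' t = i w w' (t + 1) ∨ A.Adj (i w w' t) (i w w' (t + 1))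
  hclose : ∀ w w' z z', H.Adj w w' → H.Adj z z' → ∀ t t', t ≤ n → t' ≤ n →
      i w w' t = i z z' t' →
      dist ((1 - (t : ℝ) / n) • ev (lab w) + ((t : ℝ) / n) • ev (lab w'))
        ((1 - (t' : ℝ) / n) • ev (lab z) + ((t' : ℝ) / n) • ev (lab z')) ≤ η
  surj : ∀ s, ∃ w w' t, H.Adj w w' ∧ t ≤ n ∧ i w w' t = s
  hreal : ∀ s s', A.Adj s s' →
      ∃ w w' t, H.Adj w w' ∧ t < n ∧ i w w' t = s ∧ i w w' (t + 1) = s'
  c_symm : ∀ a b, c b a = 1 - c a b
  c_mem : ∀ a b, 1 / 4 ≤ c a b ∧ c a b ≤ 3 / 4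
  c_far : ∀ w w' t, H.Adj w w' → t ≤ n → |(t : ℝ) / n - c (lab w) (lab w')| ≤ 3 * η →
      deg A (i w w' t) ≤ 2

namespace Disc

variable {V W S : Type} [Fintype V] [DecidableEq V] [Fintype W] [Fintype S] (D : Disc V W S)

/-- `s` has a position on the edge `a b` at height `τ` (measured from `a`), realised on the
`H`-edge `w w'` at time `t` -/
def At (s : S) (a b : V) (τ : ℝ) : Prop :=
  ∃ w w' t, D.H.Adj w w' ∧ t ≤ D.n ∧ D.i w w' t = s ∧ D.lab w = a ∧ D.lab w' = b ∧
    τ = (t : ℝ) / D.n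

/-- `s` is a door link of the edge `a b` -/
def Door (s : S) (a b : V) : Prop := ∃ τ, D.At s a b τ ∧ |τ - D.c a b| ≤ D.η

/-- `s` is a link on the `b`-side of the door of the edge `a b`, not a door link -/
def Hi (s : S) (a b : V) : Prop := ¬ D.Door s a b ∧ ∃ τ, D.At s a b τ ∧ D.c a b + D.η < τ

/-- the door links `s, s'` of the edge `a b` are in the same cluster -/
def Clus (a b : V) (s s' : S) : Prop :=
  ∃ (h : s ∈ {s | D.Door s a b}) (h' : s' ∈ {s | D.Door s a b}),
    (D.A.induce {s | D.Door s a b}).Reachable ⟨s, h⟩ ⟨s', h'⟩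

/-- `e` is an exit of the cluster of the door link `s` on the `b`-side of the edge `a b` -/
def Exit (a b : V) (s e : S) : Prop := ∃ s', D.Clus a b s s' ∧ D.A.Adj s' e ∧ D.Hi e a b

end Disc

end Pool.Agent.DB
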