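import Pool.Agent.DB.B.Cell

/-!
# Project DB (MP_db294d_gt), module DB-B-Fact: the exact factorisation from the data `Disc`

PROOF PLAN. Fix a linear order on `V` (`LinearOrder` from `Fintype.equivFin` lifted, or classical:
`obtain ⟨e⟩ := Fintype.truncEquivFin V`... `LinearOrder.lift' e e.injective`; beware of the
`DecidableEq V` instance inside `Disc`: use the given `[LinearOrder V]` argument of the lemmas of
`Cell.lean`, whose statements take `[DecidableEq V]` and `[LinearOrder V]` separately). Put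
`D' = D.cuts`, `comp s = (A.deleteEdges D').connectedComponentMk s`, `S' = ConnectedComponent`,
`A' = contract A D'`: tree, `bnum`, `beta` bounds (Contract.lean). `cell` from `exists_cell`.
(0) adjacent links with `comp s ≠ comp s'` are joined by a cut; adjacent links not joined by a cut
have the same `comp`. `cell` factors through `comp`: `h : S' → V` (`ConnectedComponent.lift`, walk
induction). `h` is a hom `A' → G`: adjacent components are joined by a cut `s(s,s')`, `cell s = a`,
`cell s' = b` with `a b` adjacent in `G` (`Door s a b` has a position, `at_adj`).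
(1) `g w = comp (i0 w)`. `h (g w) = cell (i0 w) = lab w`: `w` has a neighbour `w'` (`H` connected,
`W` nontrivial), `i0_not_door` gives the position `0 < c`.
(2) `low exit`: if `s` is a door link of `a b`, `a < b`, and `Exit b a s e` then `comp s = comp e`:
the path in the cluster has no cuts (`not_cut_door`), the last edge is no cut (`not_cut_lo`).
Also `comp s = comp s'` for `Clus a b s s'`.
(3) onto: for every link `s` there is `w` with `comp s = comp (i0 w)`: if `s` is no door link take a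
position (`surj`), `side_of`, and `up` (for the other side use the edge `w' w`: `hsym`); if `s` is a
door link of `a b`, WLOG `a < b` (`door_symm`), take the exit `e` on the `a`-side (`exit_exists`
for `b a`), `comp s = comp e` and `e` is no door link.
(4) `g` is a hom: `w w'` adjacent in `H`, `a = lab w`, `b = lab w'`; WLOG `a < b` (the statement is
symmetric). `k₀ = ⌊c a b * n⌋₊`: `|k₀/n - c| ≤ 1/n ≤ η`, so `s₀ = i w w' k₀` is a door link.
`exit_walk` for `w w'` from `k₀` gives `k₁` with `e₁ = i w w' k₁` on the `b`-side, an exit: there is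
`s₁` in the cluster of `s₀` with `A.Adj s₁ e₁`, `comp s₁ = comp s₀` (2); `comp e₁ = comp (i0 w')` by
`up`. `exit_walk` for the reversed edge `w' w` from `n - k₀` gives `e₂` on the `a`-side with
`comp e₂ = comp (i0 w)` (`up` for `w' w`), and `comp s₀ = comp e₂` by (2). So
`g w = comp s₁`, `g w' = comp e₁`, `A.Adj s₁ e₁`, and `g w ≠ g w'` because `h` takes the different
values `lab w`, `lab w'` on them. Hence `A'.Adj (g w) (g w')`.
-/

namespace Pool.Agent.DB

open Set

namespace Disc

variable {V W S : Type} [Fintype V] [DecidableEq V] [Fintype W] [Fintype S] (D : Disc V W S)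

/-- the component of a link in `A` minus the cuts -/
private def cmp [LinearOrder V] (s : S) : (D.A.deleteEdges D.cuts).ConnectedComponent :=
  (D.A.deleteEdges D.cuts).connectedComponentMk s

private theorem cmp_adj [LinearOrder V] {s s' : S} (h : D.A.Adj s s') (hc : s(s, s') ∉ D.cuts) :
    D.cmp s = D.cmp s' :=
  SimpleGraph.ConnectedComponent.connectedComponentMk_eq_of_adj
    (SimpleGraph.deleteEdges_adj.2 ⟨h, hc⟩)

private theorem cmp_clus [LinearOrder V] {a b : V} {s s' : S} (h : D.Clus a b s s') :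
    D.cmp s = D.cmp s' := by
  obtain ⟨h1, h2, hr⟩ := h
  have key : ∀ (x y : {s | D.Door s a b}),
      (D.A.induce {s | D.Door s a b}).Walk x y → D.cmp x.1 = D.cmp y.1 := by
    intro x y p
    induction p with
    | nil => rfl
    | @cons u v w hadj p ih =>
      exact (D.cmp_adj (by simpa using hadj) (D.not_cut_door u.2 v.2)).trans ih
  obtain ⟨p⟩ := hr
  exact key _ _ p

private theorem cmp_low [LinearOrder V] {a b : V} {s e : S} (hab : a < b)
    (he : D.Exit b a s e) : D.cmp s = D.cmp e := by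
  obtain ⟨s', hc, hadj, hhi⟩ := he
  have h' : D.Door s' b a := hc.2.1
  exact (D.cmp_clus hc).trans (D.cmp_adj hadj (D.not_cut_lo hab (D.door_symm h') hhi))

private theorem cmp_up [LinearOrder V] {w w' : W} (hw : D.H.Adj w w') (t : ℕ) (ht : t ≤ D.n)
    (hHi : D.Hi (D.i w w' t) (D.lab w) (D.lab w')) :
    D.cmp (D.i w w' t) = D.cmp (D.i0 w') :=
  D.up (fun s => D.cmp s) (fun _ _ h h1 h2 => D.cmp_adj h (D.not_cut h1 h2)) hw t ht hHi

private theorem hsym' {w w' : W} (hw : D.H.Adj w w') {t : ℕ} (ht : t ≤ D.n) :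
    D.i w' w (D.n - t) = D.i w w' t := by
  have := D.hsym w w' hw (D.n - t) (Nat.sub_le _ _)
  rw [this, Nat.sub_sub_self ht]

private theorem at_self {w w' : W} (hw : D.H.Adj w w') {t : ℕ} (ht : t ≤ D.n) :
    D.At (D.i w w' t) (D.lab w) (D.lab w') ((t : ℝ) / D.n) :=
  ⟨w, w', t, hw, ht, rfl, rfl, rfl, rfl⟩

private theorem onto_nd [LinearOrder V] {s : S} (hs : ∀ a b, ¬ D.Door s a b) :
    ∃ w, D.cmp (D.i0 w) = D.cmp s := by
  obtain ⟨w, w', t, hw, ht, rfl⟩ := D.surj s
  rcases D.side_of (D.at_self hw ht) (hs _ _) with h | h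
  · exact ⟨w', (D.cmp_up hw t ht h.1).symm⟩
  · refine ⟨w, ?_⟩
    have h1 : D.Hi (D.i w' w (D.n - t)) (D.lab w') (D.lab w) := by
      rw [D.hsym' hw ht]; exact h.1
    have := D.cmp_up hw.symm (D.n - t) (Nat.sub_le _ _) h1
    rw [D.hsym' hw ht] at this
    exact this.symm

private theorem hi_not_door {e : S} {a b : V} (h : D.Hi e a b) : ∀ a' b', ¬ D.Door e a' b' := by
  intro a' b' h'
  obtain ⟨h1, τ, h2, h3⟩ := h
  rcases D.door_of_at h2 h' with h4 | h4
  · rw [h4.1, h4.2] at h'; exact h1 h'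
  · rw [h4.1, h4.2] at h'; exact h1 (D.door_symm h')

private theorem onto_lt [LinearOrder V] {s : S} {a b : V} (hab : a < b) (hs : D.Door s a b) :
    ∃ w, D.cmp (D.i0 w) = D.cmp s := by
  obtain ⟨e, he⟩ := D.exit_exists (D.door_symm hs)
  have h1 := D.cmp_low hab he
  obtain ⟨s', -, -, hhi⟩ := he
  obtain ⟨w, hw⟩ := D.onto_nd (D.hi_not_door hhi)
  exact ⟨w, hw.trans h1.symm⟩

private theorem door_ne {s : S} {a b : V} (hs : D.Door s a b) : D.G.Adj a b := by
  obtain ⟨τ, h, -⟩ := hs
  exact D.at_adj h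

private theorem onto [LinearOrder V] (s : S) : ∃ w, D.cmp (D.i0 w) = D.cmp s := by
  by_cases h : ∃ a b, D.Door s a b
  · obtain ⟨a, b, hs⟩ := h
    rcases lt_trichotomy a b with h | h | h
    · exact D.onto_lt h hs
    · exact absurd h (D.door_ne hs).ne
    · exact D.onto_lt h (D.door_symm hs)
  · push Not at h
    exact D.onto_nd h

private theorem adj_aux [LinearOrder V] {w w' : W} (hw : D.H.Adj w w')
    (hlt : D.lab w < D.lab w') :
    ∃ s s', D.A.Adj s s' ∧ D.cmp s = D.cmp (D.i0 w) ∧ D.cmp s' = D.cmp (D.i0 w') := by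
  obtain ⟨hc1, hc2⟩ := D.c_mem (D.lab w) (D.lab w')
  have hn : (0 : ℝ) < D.n := by exact_mod_cast D.hn
  have hinv : 1 / (D.n : ℝ) ≤ D.η := by
    rw [div_le_iff₀ hn]; exact D.hnη
  set c := D.c (D.lab w) (D.lab w') with hc
  obtain ⟨k₀, hk₀⟩ : ∃ k₀, k₀ = ⌊c * D.n⌋₊ := ⟨_, rfl⟩
  have hk1 : (k₀ : ℝ) ≤ c * D.n := by rw [hk₀]; exact Nat.floor_le (by positivity)
  have hk2 : c * D.n < k₀ + 1 := by rw [hk₀]; exact Nat.lt_floor_add_one _
  have hkn : k₀ ≤ D.n := by
    have : (k₀ : ℝ) ≤ D.n := by nlinarith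
    exact_mod_cast this
  have hq1 : (k₀ : ℝ) / D.n ≤ c := by rw [div_le_iff₀ hn]; exact hk1
  have hq2 : c ≤ (k₀ : ℝ) / D.n + D.η := by
    have : c < ((k₀ : ℝ) + 1) / D.n := by rw [lt_div_iff₀ hn]; exact hk2
    rw [add_div] at this
    linarith
  have hη := D.hη
  have hd : D.Door (D.i w w' k₀) (D.lab w) (D.lab w') := by
    refine ⟨_, D.at_self hw hkn, ?_⟩
    rw [abs_le]; constructor <;> linarith
  obtain ⟨k₁, -, hk₁, hHi₁, s₁, hcl, hadj, -⟩ :=
    D.exit_walk hw k₀ hkn hd (by rw [← hc]; linarith)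
  have hd' : D.Door (D.i w' w (D.n - k₀)) (D.lab w') (D.lab w) := by
    rw [D.hsym' hw hkn]; exact D.door_symm hd
  obtain ⟨k₂, -, hk₂, hHi₂, hex₂⟩ :=
    D.exit_walk hw.symm (D.n - k₀) (Nat.sub_le _ _) hd' (by
      rw [D.c_symm (D.lab w) (D.lab w'), Nat.cast_sub hkn, sub_div, div_self hn.ne', ← hc]
      linarith)
  have e1 : D.cmp (D.i w w' k₁) = D.cmp (D.i0 w') := D.cmp_up hw k₁ hk₁ hHi₁
  have e2 : D.cmp (D.i w' w k₂) = D.cmp (D.i0 w) := D.cmp_up hw.symm k₂ hk₂ hHi₂
  have e3 : D.cmp (D.i w' w (D.n - k₀)) = D.cmp (D.i w' w k₂) := D.cmp_low hlt hex₂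
  rw [D.hsym' hw hkn] at e3
  exact ⟨s₁, _, hadj, (D.cmp_clus hcl).symm.trans (e3.trans e2), e1⟩

private theorem exists_nbr (hW : Nontrivial W) (w : W) : ∃ w', D.H.Adj w w' := by
  obtain ⟨w2, h2⟩ := exists_ne w
  obtain ⟨p⟩ := D.hH.preconnected w w2
  cases p with
  | nil => exact absurd rfl h2
  | cons h p => exact ⟨_, h⟩

private theorem factor_aux [LinearOrder V] (hW : Nontrivial W) :
    ∃ (S' : Type) (_ : Fintype S') (A' : SimpleGraph S') (g : D.H →g A') (h : A' →g D.G),
      A'.IsTree ∧ Function.Surjective g ∧ (∀ w, h (g w) = D.lab w) ∧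
      bnum A' ≤ bnum D.A ∧ beta A' ≤ beta D.A := by
  classical
  obtain ⟨cell, hc1, hc2, hc3, hc4, hc5⟩ := D.exists_cell
  haveI : Fintype (D.A.deleteEdges D.cuts).ConnectedComponent := Fintype.ofFinite _
  have hcell : ∀ {s s' : S} (p : (D.A.deleteEdges D.cuts).Walk s s'), cell s = cell s' := by
    intro s s' p
    induction p with
    | nil => rfl
    | cons h p ih =>
      rw [SimpleGraph.deleteEdges_adj] at h
      exact (hc4 _ _ h.1 h.2).trans ih
  have hcmp : ∀ {s s' : S}, D.cmp s = D.cmp s' → cell s = cell s' := by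
    intro s s' h
    obtain ⟨p⟩ := SimpleGraph.ConnectedComponent.exact h
    exact hcell p
  have hlab : ∀ w, cell (D.i0 w) = D.lab w := by
    intro w
    obtain ⟨w', hw⟩ := D.exists_nbr hW w
    obtain ⟨h1, -, h3, -⟩ := D.i0_not_door hw
    exact hc3 _ _ _ _ h3 h1 (by have := (D.c_mem (D.lab w) (D.lab w')).1; linarith)
  have hne : ∀ {w w' : W}, D.H.Adj w w' → D.cmp (D.i0 w) ≠ D.cmp (D.i0 w') := by
    intro w w' hw h
    have := hcmp h
    rw [hlab, hlab] at this
    exact (D.lab.map_adj hw).ne this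
  let g : D.H →g contract D.A D.cuts :=
    { toFun := fun w => D.cmp (D.i0 w)
      map_rel' := by
        intro w w' hw
        rcases lt_trichotomy (D.lab w) (D.lab w') with h | h | h
        · obtain ⟨s, s', h1, h2, h3⟩ := D.adj_aux hw h
          exact ⟨hne hw, s, s', h1, h2, h3⟩
        · exact absurd h (D.lab.map_adj hw).ne
        · obtain ⟨s, s', h1, h2, h3⟩ := D.adj_aux hw.symm h
          exact ⟨hne hw, s', s, h1.symm, h3, h2⟩ }
  let h : contract D.A D.cuts →g D.G :=
    { toFun := SimpleGraph.ConnectedComponent.lift cell (fun _ _ p _ => hcell p)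
      map_rel' := by
        rintro r r' ⟨hr, s, s', hadj, rfl, rfl⟩
        have hcut : s(s, s') ∈ D.cuts := by
          by_contra hcon
          exact hr (D.cmp_adj hadj hcon)
        obtain ⟨a, b, s1, s1', hab, hd, hhi, -, he⟩ := hcut
        have hG := D.door_ne hd
        obtain ⟨h5, h6⟩ := hc5 a b s1 s1' hab hd hhi
        rw [SimpleGraph.ConnectedComponent.lift_mk, SimpleGraph.ConnectedComponent.lift_mk]
        rw [Sym2.eq_iff] at he
        rcases he with he | he
        · rw [he.1, he.2, h5, h6]; exact hG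
        · rw [he.1, he.2, h5, h6]; exact hG.symm }
  refine ⟨_, inferInstance, contract D.A D.cuts, g, h, contract_isTree _ D.hA _, ?_, ?_,
    contract_bnum _ D.hA _, contract_beta _ D.hA _⟩
  · intro r
    induction r using SimpleGraph.ConnectedComponent.ind with
    | h s => exact D.onto s
  · intro w
    exact hlab w

end Disc

theorem Disc.factor {V W S : Type} [Fintype V] [DecidableEq V] [Fintype W] [Fintype S]
    (D : Disc V W S) (hW : Nontrivial W) :
    ∃ (S' : Type) (_ : Fintype S') (A' : SimpleGraph S') (g : D.H →g A') (h : A' →g D.G),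
      A'.IsTree ∧ Function.Surjective g ∧ (∀ w, h (g w) = D.lab w) ∧
      bnum A' ≤ bnum D.A ∧ beta A' ≤ beta D.A := by
  letI : LinearOrder V := LinearOrder.lift' (Fintype.equivFin V) (Fintype.equivFin V).injective
  exact D.factor_aux hW

end Pool.Agent.DB
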