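import Pool.Agent.DB.Tree.Contract

/-!
# Project DB (MP_db294d_gt), module DB-B-Image: restriction of the tree to the used links

PROOF PLAN. `I = {s | ∃ w w' t, H.Adj w w' ∧ t ≤ n ∧ i w w' t = s}`. Graph `R` of the realised steps
on the subtype `I`: `R.Adj s s'` iff `s ≠ s'` and some step `i w w' t, i w w' (t+1)` (`t < n`) or
reversed is `{s, s'}`; `R ≤ A₀.induce I` by `hstep`. `R` is connected: all links of one `H`-edge are
joined to `i0 w` (induction on `t`), and `i0 w`, `i0 w'` are joined for adjacent `w, w'`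
(`i w w' n = i0 w'` by `hsym`, `h0`), so everything is joined because `H` is connected (walk
induction). `A₁ = A₀.induce I` is acyclic (subgraph of a tree) and connected (`R ≤ A₁`): a tree.
`R` is a connected subgraph of a tree with the same vertices: `R = A₁` (if `s s'` is an edge of
`A₁` which is not in `R`: it is a bridge of the acyclic graph `A₁`, but `s, s'` are reachable in `R`,
hence in `A₁` minus this edge). So every edge of `A₁` is realised by a step, in one of the two
directions; the reversed direction by `hsym`: `i w' w (n - t - 1) = i w w' (t+1)` and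
`i w' w (n - t) = i w w' t`.
Degrees: `deg A₁ s ≤ deg A₀ s` (the neighbours of `s` in `A₁` inject into those in `A₀`,
`Set.ncard_le_ncard` after taking the image under `Subtype.val`), hence `bnum` and `beta` are not
larger.
-/

namespace Pool.Agent.DB

open Set

theorem image_tree {V W S₀ : Type} [Fintype V] [DecidableEq V] [Fintype W] [Fintype S₀]
    (H : SimpleGraph W) (hH : H.Connected) (hWn : Nontrivial W)
    (A₀ : SimpleGraph S₀) (hA₀ : A₀.IsTree) (n : ℕ) (hn : 0 < n)
    (i : W → W → ℕ → S₀) (i0 : W → S₀)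
    (h0 : ∀ w w', H.Adj w w' → i w w' 0 = i0 w)
    (hsym : ∀ w w', H.Adj w w' → ∀ t, t ≤ n → i w' w t = i w w' (n - t))
    (hstep : ∀ w w', H.Adj w w' → ∀ t, t < n →
      i w w' t = i w w' (t + 1) ∨ A₀.Adj (i w w' t) (i w w' (t + 1))) :
    ∃ (S : Type) (_ : Fintype S) (ι : S → S₀) (A : SimpleGraph S) (i' : W → W → ℕ → S)
      (i0' : W → S),
      Function.Injective ι ∧ A.IsTree ∧ (∀ s s', A.Adj s s' ↔ A₀.Adj (ι s) (ι s')) ∧
      bnum A ≤ bnum A₀ ∧ beta A ≤ beta A₀ ∧
      (∀ w w' t, H.Adj w w' → t ≤ n → ι (i' w w' t) = i w w' t) ∧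
      (∀ w, ι (i0' w) = i0 w) ∧
      (∀ s, ∃ w w' t, H.Adj w w' ∧ t ≤ n ∧ i' w w' t = s) ∧
      (∀ s s', A.Adj s s' →
        ∃ w w' t, H.Adj w w' ∧ t < n ∧ i' w w' t = s ∧ i' w w' (t + 1) = s') := by
  classical
  -- every vertex has a neighbour
  have hnb : ∀ w, ∃ w', H.Adj w w' := by
    intro w
    obtain ⟨w', hw'⟩ := exists_ne w
    obtain ⟨p⟩ := hH.preconnected w w'
    cases p with
    | nil => exact absurd rfl hw'
    | cons h _ => exact ⟨_, h⟩
  have hI0 : ∀ w, ∃ w1 w2 t, H.Adj w1 w2 ∧ t ≤ n ∧ i w1 w2 t = i0 w := by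
    intro w
    obtain ⟨w', hw'⟩ := hnb w
    exact ⟨w, w', 0, hw', Nat.zero_le _, h0 _ _ hw'⟩
  obtain ⟨wb, -⟩ := exists_pair_ne W
  have hmem : ∀ w w' t, H.Adj w w' ∧ t ≤ n → ∃ w1 w2 t1, H.Adj w1 w2 ∧ t1 ≤ n ∧
      i w1 w2 t1 = i w w' t := fun w w' t h => ⟨w, w', t, h.1, h.2, rfl⟩
  let S := {s : S₀ // ∃ w w' t, H.Adj w w' ∧ t ≤ n ∧ i w w' t = s}
  let i0' : W → S := fun w => ⟨i0 w, hI0 w⟩
  let i' : W → W → ℕ → S := fun w w' t =>
    if h : H.Adj w w' ∧ t ≤ n then ⟨i w w' t, hmem w w' t h⟩ else i0' wb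
  have hi' : ∀ w w' t, H.Adj w w' → t ≤ n → (i' w w' t).1 = i w w' t := by
    intro w w' t h1 h2
    change (if h : H.Adj w w' ∧ t ≤ n then (⟨i w w' t, hmem w w' t h⟩ : S) else i0' wb).1 = _
    rw [dif_pos ⟨h1, h2⟩]
  let A : SimpleGraph S := SimpleGraph.comap Subtype.val A₀
  have hAadj : ∀ s s' : S, A.Adj s s' ↔ A₀.Adj s.1 s'.1 := fun s s' => Iff.rfl
  let R : SimpleGraph S :=
    { Adj := fun s s' => A.Adj s s' ∧ ∃ w w' t, H.Adj w w' ∧ t < n ∧ i' w w' t = s ∧
        i' w w' (t + 1) = s'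
      symm := ⟨by
        rintro s s' ⟨h, w, w', t, h1, h2, h3, h4⟩
        refine ⟨h.symm, w', w, n - t - 1, h1.symm, by omega, ?_, ?_⟩
        · rw [← h4]
          apply Subtype.ext
          rw [hi' _ _ _ h1.symm (by omega), hi' _ _ _ h1 (by omega), hsym _ _ h1 _ (by omega)]
          congr 1
          omega
        · rw [← h3]
          apply Subtype.ext
          rw [hi' _ _ _ h1.symm (by omega), hi' _ _ _ h1 (by omega), hsym _ _ h1 _ (by omega)]
          congr 1
          omega⟩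
      loopless := ⟨fun s h => A.irrefl h.1⟩ }
  have hRadj : ∀ s s', R.Adj s s' ↔ A.Adj s s' ∧ ∃ w w' t, H.Adj w w' ∧ t < n ∧
      i' w w' t = s ∧ i' w w' (t + 1) = s' := fun _ _ => Iff.rfl
  have hRA : R ≤ A := fun s s' h => h.1
  have hc1 : ∀ w w', H.Adj w w' → ∀ t, t ≤ n → R.Reachable (i0' w) (i' w w' t) := by
    intro w w' hw t
    induction t with
    | zero =>
      intro _
      have : i' w w' 0 = i0' w := by
        apply Subtype.ext
        rw [hi' _ _ _ hw (Nat.zero_le _), h0 _ _ hw]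
      rw [this]
    | succ t ih =>
      intro ht
      have h1 := ih (by omega)
      rcases hstep w w' hw t (by omega) with h | h
      · have : i' w w' (t + 1) = i' w w' t := by
          apply Subtype.ext
          rw [hi' _ _ _ hw (by omega), hi' _ _ _ hw (by omega), h]
        rw [this]; exact h1
      · refine h1.trans (SimpleGraph.Adj.reachable ((hRadj _ _).2 ⟨?_, w, w', t, hw, by omega,
          rfl, rfl⟩))
        rw [hAadj, hi' _ _ _ hw (by omega), hi' _ _ _ hw (by omega)]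
        exact h
  have hc2 : ∀ w w', H.Adj w w' → R.Reachable (i0' w) (i0' w') := by
    intro w w' hw
    have h1 := hc1 w w' hw n le_rfl
    have : i' w w' n = i0' w' := by
      apply Subtype.ext
      have h2 := hsym w w' hw 0 (Nat.zero_le _)
      rw [h0 _ _ hw.symm, Nat.sub_zero] at h2
      rw [hi' _ _ _ hw le_rfl, ← h2]
    rwa [this] at h1
  have hc3 : ∀ w w', R.Reachable (i0' w) (i0' w') := by
    intro w w'
    obtain ⟨p⟩ := hH.preconnected w w'
    induction p with
    | nil => exact SimpleGraph.Reachable.refl _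
    | cons h _ ih => exact (hc2 _ _ h).trans ih
  have hsur : ∀ s : S, ∃ w w' t, H.Adj w w' ∧ t ≤ n ∧ i' w w' t = s := by
    rintro ⟨s, w, w', t, h1, h2, h3⟩
    refine ⟨w, w', t, h1, h2, ?_⟩
    apply Subtype.ext
    rw [hi' _ _ _ h1 h2]
    exact h3
  have hRpre : R.Preconnected := by
    intro s s'
    obtain ⟨w, w', t, h1, h2, h3⟩ := hsur s
    obtain ⟨v, v', t', g1, g2, g3⟩ := hsur s'
    rw [← h3, ← g3]
    exact ((hc1 w w' h1 t h2).symm.trans (hc3 w v)).trans (hc1 v v' g1 t' g2)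
  have hne : Nonempty S := ⟨i0' wb⟩
  have hRc : R.Connected := ⟨hRpre⟩
  have hAc : A.Connected := hRc.mono hRA
  have hAa : A.IsAcyclic :=
    SimpleGraph.IsAcyclic.comap (G := A) (G' := A₀) ⟨Subtype.val, fun h => h⟩
      Subtype.val_injective hA₀.isAcyclic
  have hAR : ∀ s s', A.Adj s s' → R.Adj s s' := by
    intro s s' h
    by_contra hcon
    have hb := (SimpleGraph.isAcyclic_iff_forall_adj_isBridge.1 hAa) h
    rw [SimpleGraph.isBridge_iff] at hb
    apply hb
    refine (hRpre s s').mono ?_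
    intro u v huv
    rw [SimpleGraph.deleteEdges_adj]
    refine ⟨hRA huv, ?_⟩
    intro hmem'
    rw [Set.mem_singleton_iff, Sym2.eq_iff] at hmem'
    rcases hmem' with ⟨h1, h2⟩ | ⟨h1, h2⟩
    · rw [h1, h2] at huv; exact hcon huv
    · rw [h1, h2] at huv; exact hcon huv.symm
  have hdeg : ∀ s : S, deg A s ≤ deg A₀ s.1 := by
    intro s
    unfold deg
    refine Set.ncard_le_ncard_of_injOn Subtype.val (fun v hv => hv)
      (fun a _ b _ h => Subtype.ext h) (Set.toFinite _)
  have hfS : Fintype S := Fintype.ofFinite S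
  refine ⟨S, hfS, Subtype.val, A, i', i0', Subtype.val_injective, ⟨hAc, hAa⟩, hAadj, ?_, ?_,
    hi', fun w => rfl, hsur, ?_⟩
  · unfold bnum
    refine Set.ncard_le_ncard_of_injOn Subtype.val (fun v hv => ?_)
      (fun a _ b _ h => Subtype.ext h) (Set.toFinite _)
    exact le_trans hv (hdeg v)
  · unfold beta
    calc ∑ v : S, (deg A v - 2) ≤ ∑ v : S, (deg A₀ v.1 - 2) :=
          Finset.sum_le_sum fun v _ => Nat.sub_le_sub_right (hdeg v) 2
      _ = ∑ v ∈ Finset.univ.map ⟨(Subtype.val : S → S₀), Subtype.val_injective⟩,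
            (deg A₀ v - 2) := by rw [Finset.sum_map]; rfl
      _ ≤ ∑ v : S₀, (deg A₀ v - 2) :=
          Finset.sum_le_sum_of_subset (Finset.subset_univ _)
  · intro s s' h
    exact ((hRadj _ _).1 (hAR s s' h)).2

end Pool.Agent.DB
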