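import Pool.Agent.DB.B.Fact
import Pool.Agent.DB.B.Image
import Pool.Agent.DB.B.Choose

/-!
# Project DB (MP_db294d_gt), module DB-B-Final: the discretisation theorem

PROOF PLAN. `image_tree` gives `A, i', i0', ι`. For every pair `a b` with `a < b` (linear order on
`V` as in `Fact.lean`) choose by `choose_door` (`T` = branch vertices of `A`, `N = bnum A ≤ bnum A₀`,
`pos s = {τ | ∃ w w' t, H.Adj w w' ∧ t ≤ n ∧ i' w w' t = s ∧ lab w = a ∧ lab w' = b ∧ τ = t/n} `)
a number `c₀ a b`; put `c a b = c₀ a b` for `a < b`, `c a b = 1 - c₀ b a` for `b < a`,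
`c a a = 1/2`. The hypothesis `hpos` of `choose_door`: two positions of the same link on the same
edge differ by at most `η` (`hclose` at the coordinate `b`). `c_far` for `lab w < lab w'`: if
`deg A (i' w w' t) ≥ 3` the link is in `T`; for `lab w' < lab w` use the reversed edge and `hsym`.
(`lab w ≠ lab w'` because `lab` is a hom.) All other fields of `Disc` are immediate (apply `ι`,
injective). Then `Disc.factor`.
-/
namespace Pool.Agent.DB

open Set

private theorem bf_coord {V : Type} [Fintype V] [DecidableEq V] {a b : V} (hab : a ≠ b)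
    (τ τ' η : ℝ)
    (h : dist ((1 - τ) • ev a + τ • ev b : V → ℝ) ((1 - τ') • ev a + τ' • ev b) ≤ η) :
    |τ - τ'| ≤ η := by
  have h1 := (dist_le_pi_dist ((1 - τ) • ev a + τ • ev b : V → ℝ)
    ((1 - τ') • ev a + τ' • ev b) b).trans h
  rw [Real.dist_eq] at h1
  have e1 : ∀ σ : ℝ, ((1 - σ) • ev a + σ • ev b : V → ℝ) b = σ := by
    intro σ
    simp [ev, hab.symm]
  rwa [e1, e1] at h1

theorem B_main {V W S₀ : Type} [Fintype V] [DecidableEq V] [Fintype W] [Fintype S₀]
    (G : SimpleGraph V) (hG : G.IsTree) (H : SimpleGraph W) (hH : H.Connected) (lab : H →g G)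
    (hWn : Nontrivial W)
    (A₀ : SimpleGraph S₀) (hA₀ : A₀.IsTree) (n : ℕ) (hn : 0 < n) (η : ℝ) (hη : 0 < η)
    (hη1 : 100 * ((bnum A₀ : ℝ) + 1) * η ≤ 1) (hnη : 1 ≤ η * n)
    (i : W → W → ℕ → S₀) (i0 : W → S₀)
    (h0 : ∀ w w', H.Adj w w' → i w w' 0 = i0 w)
    (hsym : ∀ w w', H.Adj w w' → ∀ t, t ≤ n → i w' w t = i w w' (n - t))
    (hstep : ∀ w w', H.Adj w w' → ∀ t, t < n →
      i w w' t = i w w' (t + 1) ∨ A₀.Adj (i w w' t) (i w w' (t + 1)))
    (hclose : ∀ w w' z z', H.Adj w w' → H.Adj z z' → ∀ t t', t ≤ n → t' ≤ n →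
      i w w' t = i z z' t' →
      dist ((1 - (t : ℝ) / n) • ev (lab w) + ((t : ℝ) / n) • ev (lab w'))
        ((1 - (t' : ℝ) / n) • ev (lab z) + ((t' : ℝ) / n) • ev (lab z')) ≤ η) :
    ∃ (S : Type) (_ : Fintype S) (A : SimpleGraph S) (g : H →g A) (h : A →g G),
      A.IsTree ∧ Function.Surjective g ∧ (∀ w, h (g w) = lab w) ∧
      bnum A ≤ bnum A₀ ∧ beta A ≤ beta A₀ := by
  classical
  obtain ⟨S, fS, ι, A, i', i0', hι, hA, hadj, hb, hβ, hi', hi0', hsurj, hreal⟩ :=
    image_tree (V := V) H hH hWn A₀ hA₀ n hn i i0 h0 hsym hstep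
  have hn0 : (0 : ℝ) < n := by exact_mod_cast hn
  let e : V ≃ Fin (Fintype.card V) := Fintype.equivFin V
  let T : Finset S := Finset.univ.filter (fun s => 3 ≤ deg A s)
  have hT : T.card ≤ bnum A₀ := by
    refine le_trans (le_of_eq ?_) hb
    unfold bnum
    rw [Set.ncard_eq_toFinset_card']
    congr 1
    ext s
    simp [T]
  let pos : V → V → S → Set ℝ := fun a b s =>
    {τ | ∃ w w' t, H.Adj w w' ∧ t ≤ n ∧ i' w w' t = s ∧ lab w = a ∧ lab w' = b ∧
      τ = (t : ℝ) / n}
  have hex : ∀ a b : V, ∃ c : ℝ, 1 / 4 ≤ c ∧ c ≤ 3 / 4 ∧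
      (a ≠ b → ∀ s ∈ T, ∀ x ∈ pos a b s, 3 * η < |x - c|) := by
    intro a b
    rcases eq_or_ne a b with hab | hab
    · exact ⟨1 / 2, by norm_num, by norm_num, fun h => absurd hab h⟩
    · obtain ⟨c, h1, h2, h3⟩ := choose_door T (bnum A₀) hT η hη hη1 (pos a b) (by
        rintro s - x ⟨w, w', t, hw, ht, hs, ha, hb', rfl⟩ y ⟨z, z', t', hz, ht', hs', ha', hb'', rfl⟩
        have h1 := hclose w w' z z' hw hz t t' ht ht' (by
          rw [← hi' w w' t hw ht, ← hi' z z' t' hz ht', hs, hs'])
        rw [ha, hb', ha', hb''] at h1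
        exact bf_coord hab _ _ _ h1)
      exact ⟨c, h1, h2, fun _ => h3⟩
  choose c₀ hc1 hc2 hc3 using hex
  let c : V → V → ℝ := fun a b => if e a < e b then c₀ a b else if e b < e a then 1 - c₀ b a
    else 1 / 2
  have hb100 : 100 * η ≤ 1 := by
    have h1 : (0 : ℝ) ≤ bnum A₀ := Nat.cast_nonneg _
    nlinarith [mul_nonneg h1 hη.le]
  have hsym' : ∀ w w', H.Adj w w' → ∀ t, t ≤ n → i' w' w t = i' w w' (n - t) := by
    intro w w' hw t ht
    apply hι
    rw [hi' w' w t hw.symm ht, hi' w w' (n - t) hw (Nat.sub_le _ _)]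
    exact hsym w w' hw t ht
  let D : Disc V W S :=
    { G := G
      H := H
      lab := lab
      A := A
      n := n
      η := η
      i := i'
      i0 := i0'
      c := c
      hG := hG
      hH := hH
      hA := hA
      hn := hn
      hη := hη
      hη1 := hb100
      hnη := hnη
      h0 := by
        intro w w' hw
        apply hι
        rw [hi' w w' 0 hw (Nat.zero_le _), hi0' w]
        exact h0 w w' hw
      hsym := hsym'
      hstep := by
        intro w w' hw t ht
        rcases hstep w w' hw t ht with h | h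
        · left
          apply hι
          rw [hi' w w' t hw ht.le, hi' w w' (t + 1) hw ht]
          exact h
        · right
          rw [hadj, hi' w w' t hw ht.le, hi' w w' (t + 1) hw ht]
          exact h
      hclose := by
        intro w w' z z' hw hz t t' ht ht' h
        refine hclose w w' z z' hw hz t t' ht ht' ?_
        rw [← hi' w w' t hw ht, ← hi' z z' t' hz ht', h]
      surj := hsurj
      hreal := hreal
      c_symm := by
        intro a b
        simp only [c]
        rcases lt_trichotomy (e a) (e b) with h | h | h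
        · rw [if_neg (not_lt.2 h.le), if_pos h, if_pos h]
        · rw [h]
          norm_num
        · rw [if_pos h, if_neg (not_lt.2 h.le), if_pos h]
          ring
      c_mem := by
        intro a b
        simp only [c]
        split_ifs
        · exact ⟨hc1 a b, hc2 a b⟩
        · constructor
          · linarith [hc2 b a]
          · linarith [hc1 b a]
        · constructor <;> norm_num
      c_far := by
        intro w w' t hw ht h
        by_contra hdeg
        have hmem : i' w w' t ∈ T := by
          simp only [T, Finset.mem_filter, Finset.mem_univ, true_and]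
          omega
        have hne : lab w ≠ lab w' := (lab.map_adj hw).ne
        simp only [c] at h
        rcases lt_trichotomy (e (lab w)) (e (lab w')) with h1 | h1 | h1
        · rw [if_pos h1] at h
          have h2 := hc3 (lab w) (lab w') hne _ hmem ((t : ℝ) / n)
            ⟨w, w', t, hw, ht, rfl, rfl, rfl, rfl⟩
          linarith
        · exact hne (e.injective h1)
        · rw [if_neg (not_lt.2 h1.le), if_pos h1] at h
          have h2 := hc3 (lab w') (lab w) hne.symm _ hmem (((n - t : ℕ) : ℝ) / n)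
            ⟨w', w, n - t, hw.symm, Nat.sub_le _ _, by
              rw [hsym' w w' hw (n - t) (Nat.sub_le _ _), Nat.sub_sub_self ht], rfl, rfl, rfl⟩
          have h3 : (((n - t : ℕ) : ℝ) / n) = 1 - (t : ℝ) / n := by
            rw [Nat.cast_sub ht]
            field_simp
          rw [h3] at h2
          have h4 : |1 - (t : ℝ) / n - c₀ (lab w') (lab w)| =
              |(t : ℝ) / n - (1 - c₀ (lab w') (lab w))| := by
            rw [← abs_neg]
            congr 1
            ring
          rw [h4] at h2
          linarith }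
  obtain ⟨S', fS', A', g, h, h1, h2, h3, h4, h5⟩ := Disc.factor D hWn
  exact ⟨S', fS', A', g, h, h1, h2, h3, h4.trans hb, h5.trans hβ⟩

end Pool.Agent.DB
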