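import Pool.Agent.DB.B.Disc

/-!
# Project DB (MP_db294d_gt), module DB-B-Pos: positions of links

PROOF PLAN. `η ≤ 1/100`, so `[1/4 - 5η, 3/4 + 5η]` is inside `(1/5, 4/5)`.
`at_symm`: `D.hsym`: `i w' w (n - t) = i w w' t`, `(n - t)/n = 1 - t/n`.
`at_near`: evaluate `hclose` at the coordinates `a` and `b` (`dist_le_pi_dist`, `ev_apply`: the value
of `ev x` at `v` is `if v = x then 1 else 0`): the position `(1-τ') a' + τ' b'` has value at `a` at
least `1/5 - η > 0` and at `b` at least `1/5 - η > 0`, so `a, b ∈ {a', b'}`; as `a ≠ b` (adjacent,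
`lab` is a hom) either `(a', b') = (a, b)` and `|τ' - τ| ≤ η`, or `(a', b') = (b, a)` and
`|(1 - τ') - τ| ≤ η`.
`door_symm`: `at_symm`, `c b a = 1 - c a b`.
`door_unique`: `at_near` for the two door positions.
`door_at`: a door link has all its positions near the door.
`door_deg`: `c_far`.
`hi_not_lo`: a link cannot be on both sides: two positions differ by at most `η`, but are `> 2η`
apart.
`side_of`: a non-door link with a position on `a b` is on one side.
-/

namespace Pool.Agent.DB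

open Set

namespace Disc

variable {V W S : Type} [Fintype V] [DecidableEq V] [Fintype W] [Fintype S] (D : Disc V W S)

private theorem n_pos : (0 : ℝ) < D.n := by
  exact_mod_cast D.hn

theorem at_symm {s : S} {a b : V} {τ : ℝ} (h : D.At s a b τ) : D.At s b a (1 - τ) := by
  obtain ⟨w, w', t, hw, ht, hs, ha, hb, rfl⟩ := h
  refine ⟨w', w, D.n - t, hw.symm, Nat.sub_le _ _, ?_, hb, ha, ?_⟩
  · rw [D.hsym w w' hw (D.n - t) (Nat.sub_le _ _), Nat.sub_sub_self ht]
    exact hs
  · have := D.n_pos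
    rw [Nat.cast_sub ht]
    field_simp

theorem at_adj {s : S} {a b : V} {τ : ℝ} (h : D.At s a b τ) : D.G.Adj a b := by
  obtain ⟨w, w', t, hw, ht, hs, ha, hb, rfl⟩ := h
  rw [← ha, ← hb]
  exact D.lab.map_adj hw

theorem at_mem {s : S} {a b : V} {τ : ℝ} (h : D.At s a b τ) : 0 ≤ τ ∧ τ ≤ 1 := by
  obtain ⟨w, w', t, hw, ht, hs, ha, hb, rfl⟩ := h
  have := D.n_pos
  refine ⟨by positivity, (div_le_one this).2 ?_⟩
  exact_mod_cast ht

/-- coordinates of two positions of the same link -/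
private theorem coord {s : S} {a b a' b' : V} {τ τ' : ℝ} (h : D.At s a b τ)
    (h' : D.At s a' b' τ') (v : V) :
    |((1 - τ) * (if v = a then 1 else 0) + τ * (if v = b then 1 else 0)) -
      ((1 - τ') * (if v = a' then 1 else 0) + τ' * (if v = b' then 1 else 0))| ≤ D.η := by
  obtain ⟨w, w', t, hw, ht, hs, ha, hb, rfl⟩ := h
  obtain ⟨z, z', t', hz, ht', hs', ha', hb', rfl⟩ := h'
  have h1 := D.hclose w w' z z' hw hz t t' ht ht' (hs.trans hs'.symm)
  have h2 := (dist_le_pi_dist _ _ v).trans h1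
  rw [Real.dist_eq] at h2
  simp only [Pi.add_apply, Pi.smul_apply, smul_eq_mul] at h2
  rw [ha, hb, ha', hb'] at h2
  simpa [ev, Pi.single_apply] using h2

/-- positions on the same edge differ by at most `η` -/
theorem at_same {s : S} {a b : V} {τ τ' : ℝ} (h : D.At s a b τ) (h' : D.At s a b τ') :
    |τ' - τ| ≤ D.η := by
  have hab := (D.at_adj h).ne
  have h1 := D.coord h h' b
  rw [if_neg hab.symm, if_pos rfl] at h1
  rw [abs_sub_comm]
  calc |τ - τ'| = |(1 - τ) * 0 + τ * 1 - ((1 - τ') * 0 + τ' * 1)| := by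
        congr 1
        ring
    _ ≤ D.η := h1

theorem at_near {s : S} {a b a' b' : V} {τ τ' : ℝ} (h : D.At s a b τ) (h' : D.At s a' b' τ')
    (hτ : |τ - D.c a b| ≤ 5 * D.η) :
    (a' = a ∧ b' = b ∧ |τ' - τ| ≤ D.η) ∨ (a' = b ∧ b' = a ∧ |(1 - τ') - τ| ≤ D.η) := by
  have hab := (D.at_adj h).ne
  have hab' := (D.at_adj h').ne
  obtain ⟨c1, c2⟩ := D.c_mem a b
  have hη := D.hη
  have hη1 := D.hη1
  rw [abs_le] at hτ
  have ha := D.coord h h' a
  have hb := D.coord h h' b
  rw [if_pos rfl, if_neg hab, abs_le] at ha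
  rw [if_neg hab.symm, if_pos rfl, abs_le] at hb
  have hA : a' = a ∨ b' = a := by
    by_contra hcon
    rw [not_or] at hcon
    rw [if_neg (Ne.symm hcon.1), if_neg (Ne.symm hcon.2)] at ha
    linarith [ha.1, ha.2]
  have hB : a' = b ∨ b' = b := by
    by_contra hcon
    rw [not_or] at hcon
    rw [if_neg (Ne.symm hcon.1), if_neg (Ne.symm hcon.2)] at hb
    linarith [hb.1, hb.2]
  rcases hA with hA | hA
  · have hB' : b' = b := by
      rcases hB with hB | hB
      · exact absurd (hA.symm.trans hB) hab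
      · exact hB
    left
    subst hA
    subst hB'
    exact ⟨rfl, rfl, D.at_same h h'⟩
  · have hB' : a' = b := by
      rcases hB with hB | hB
      · exact hB
      · exact absurd (hA.symm.trans hB) hab
    right
    subst hA
    subst hB'
    exact ⟨rfl, rfl, D.at_same h (D.at_symm h')⟩

theorem door_symm {s : S} {a b : V} (h : D.Door s a b) : D.Door s b a := by
  obtain ⟨τ, h1, h2⟩ := h
  refine ⟨1 - τ, D.at_symm h1, ?_⟩
  rw [D.c_symm a b, abs_sub_comm]
  calc |1 - D.c a b - (1 - τ)| = |τ - D.c a b| := by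
        congr 1
        ring
    _ ≤ D.η := h2

/-- a link with a position near the door of `a b` can only be a door link of this edge -/
theorem door_of_at {s : S} {a b a' b' : V} {τ : ℝ} (h : D.At s a b τ)
    (h' : D.Door s a' b') : (a' = a ∧ b' = b) ∨ (a' = b ∧ b' = a) := by
  obtain ⟨τ', h1, h2⟩ := h'
  rcases D.at_near h1 h (by linarith [D.hη]) with h3 | h3
  · exact Or.inl ⟨h3.1.symm, h3.2.1.symm⟩
  · exact Or.inr ⟨h3.2.1.symm, h3.1.symm⟩

theorem door_unique {s : S} {a b a' b' : V} (h : D.Door s a b) (h' : D.Door s a' b') :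
    (a' = a ∧ b' = b) ∨ (a' = b ∧ b' = a) := by
  obtain ⟨τ, h1, -⟩ := h
  exact D.door_of_at h1 h'

/-- all positions of a door link are near the door -/
theorem door_at {s : S} {a b : V} {τ : ℝ} (h : D.At s a b τ) (h' : D.Door s a b) :
    |τ - D.c a b| ≤ 2 * D.η := by
  obtain ⟨τ', h1, h2⟩ := h'
  have h3 := D.at_same h1 h
  calc |τ - D.c a b| = |(τ - τ') + (τ' - D.c a b)| := by
        congr 1
        ring
    _ ≤ |τ - τ'| + |τ' - D.c a b| := abs_add_le _ _
    _ ≤ 2 * D.η := by linarith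

theorem door_deg {s : S} {a b : V} (h : D.Door s a b) : deg D.A s ≤ 2 := by
  obtain ⟨τ, ⟨w, w', t, hw, ht, hs, ha, hb, rfl⟩, h2⟩ := h
  rw [← hs]
  refine D.c_far w w' t hw ht ?_
  rw [ha, hb]
  linarith [D.hη]

/-- a non-door link on the edge `a b` is on the `b`-side (`Hi s a b`) or on the `a`-side
(`Hi s b a`) -/
theorem side_of {s : S} {a b : V} {τ : ℝ} (h : D.At s a b τ) (h' : ¬ D.Door s a b) :
    (D.Hi s a b ∧ D.c a b + D.η < τ) ∨ (D.Hi s b a ∧ τ < D.c a b - D.η) := by
  have h1 : ¬ |τ - D.c a b| ≤ D.η := fun hc => h' ⟨τ, h, hc⟩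
  rw [not_le, lt_abs] at h1
  rcases h1 with h1 | h1
  · exact Or.inl ⟨⟨h', τ, h, by linarith⟩, by linarith⟩
  · refine Or.inr ⟨⟨fun hc => h' (D.door_symm hc), 1 - τ, D.at_symm h, ?_⟩, by linarith⟩
    rw [D.c_symm a b]
    linarith

theorem hi_at {s : S} {a b : V} {τ : ℝ} (h : D.At s a b τ) (h' : D.Hi s a b) :
    D.c a b + D.η < τ := by
  obtain ⟨h1, τ', h2, h3⟩ := h'
  rcases D.side_of h h1 with h4 | h4
  · exact h4.2
  · have h5 := D.at_same h h2
    rw [abs_le] at h5
    linarith [h5.2, h4.2, D.hη]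

theorem hi_not_lo {s : S} {a b : V} (h : D.Hi s a b) (h' : D.Hi s b a) : False := by
  obtain ⟨h1, τ', h2, h3⟩ := h'
  have h4 := D.hi_at (D.at_symm h2) h
  rw [D.c_symm a b] at h3
  linarith [D.hη]

/-- the two ends are not door links -/
theorem i0_not_door {w w' : W} (h : D.H.Adj w w') :
    D.At (D.i0 w) (D.lab w) (D.lab w') 0 ∧ D.At (D.i0 w') (D.lab w) (D.lab w') 1 ∧
      (∀ a b, ¬ D.Door (D.i0 w) a b) ∧ (∀ a b, ¬ D.Door (D.i0 w') a b) := by
  have key : ∀ {w w' : W}, D.H.Adj w w' → D.At (D.i0 w) (D.lab w) (D.lab w') 0 := by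
    intro w w' h
    exact ⟨w, w', 0, h, Nat.zero_le _, D.h0 w w' h, rfl, rfl, by simp⟩
  have hnd : ∀ {w w' : W}, D.H.Adj w w' → ∀ a b, ¬ D.Door (D.i0 w) a b := by
    intro w w' h a b hd
    have h1 := key h
    have hη := D.hη
    have hη1 := D.hη1
    rcases D.door_of_at h1 hd with ⟨ha, hb⟩ | ⟨ha, hb⟩
    · subst ha
      subst hb
      have := D.door_at h1 hd
      obtain ⟨c1, c2⟩ := D.c_mem (D.lab w) (D.lab w')
      rw [abs_le] at this
      linarith [this.1, this.2]
    · subst ha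
      subst hb
      have := D.door_at h1 (D.door_symm hd)
      obtain ⟨c1, c2⟩ := D.c_mem (D.lab w) (D.lab w')
      rw [abs_le] at this
      linarith [this.1, this.2]
  have h1 := D.at_symm (key h.symm)
  rw [sub_zero] at h1
  exact ⟨key h, h1, hnd h, hnd h.symm⟩

end Disc

end Pool.Agent.DB
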