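import Pool.Agent.DB.B.Walk

/-!
# Project DB (MP_db294d_gt), module DB-B-Up: a link on the `b`-side is in the room of the end

Abstract form: `comp` is any function on the links which takes the same value on adjacent links
which are both not door links.

PROOF PLAN. Let `a = lab w`, `b = lab w'`, `r = comp (D.i w w' t)`. Upward induction on `k`,
`t ≤ k ≤ n`, statement `St k`: if `D.i w w' k` is a door link of `a b`, then every `e` with
`Exit a b (D.i w w' k) e` has `comp e = r`; otherwise `comp (D.i w w' k) = r`.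
Note `k/n ≥ t/n > c a b + η` for all these `k`, so a non-door link `D.i w w' k` is `Hi _ a b`
(`side_of`), and by `door_of_at` no door link of `a b` is the same as no door link.
Step `k → k+1` (`hstep`): equal links: trivial. Both non-door: hypothesis on `comp`. `D.i k`
non-door, `D.i (k+1)` door: `D.i k` is an exit of `D.i (k+1)` (`clus_refl`, adjacency, `Hi`), by
`exit_unique` every exit `e` of `D.i (k+1)` is `D.i k`. `D.i k` door, `D.i (k+1)` non-door:
`D.i (k+1)` is an exit of `D.i k`, use `St k`. Both door: `exit_congr`.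
At `k = n`: `D.i w w' n = i0 w'` (`hsym` with `t = 0` for the edge `w' w`, `h0`), not a door link
(`i0_not_door`).
-/

namespace Pool.Agent.DB

open Set

namespace Disc

variable {V W S : Type} [Fintype V] [DecidableEq V] [Fintype W] [Fintype S] (D : Disc V W S)

theorem up {R : Type} (comp : S → R)
    (hcomp : ∀ s s', D.A.Adj s s' → (∀ a b, ¬ D.Door s a b) → (∀ a b, ¬ D.Door s' a b) →
      comp s = comp s')
    {w w' : W} (hw : D.H.Adj w w') (t : ℕ) (ht : t ≤ D.n)
    (hHi : D.Hi (D.i w w' t) (D.lab w) (D.lab w')) :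
    comp (D.i w w' t) = comp (D.i0 w') := by
  have hat : ∀ k, k ≤ D.n → D.At (D.i w w' k) (D.lab w) (D.lab w') ((k : ℝ) / D.n) :=
    fun k hk => ⟨w, w', k, hw, hk, rfl, rfl, rfl, rfl⟩
  have hn0 : (0 : ℝ) < D.n := by exact_mod_cast D.hn
  have hpos : ∀ k, t ≤ k → D.c (D.lab w) (D.lab w') + D.η < (k : ℝ) / D.n := by
    intro k hk
    refine lt_of_lt_of_le (D.hi_at (hat t ht) hHi) ?_
    exact div_le_div_of_nonneg_right (by exact_mod_cast hk) hn0.le
  have hdoor : ∀ k, k ≤ D.n → ¬ D.Door (D.i w w' k) (D.lab w) (D.lab w') →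
      ∀ a b, ¬ D.Door (D.i w w' k) a b := by
    intro k hk hnd a b hd
    rcases D.door_of_at (hat k hk) hd with ⟨h1, h2⟩ | ⟨h1, h2⟩
    · rw [h1, h2] at hd; exact hnd hd
    · rw [h1, h2] at hd; exact hnd (D.door_symm hd)
  have hHik : ∀ k, t ≤ k → k ≤ D.n → ¬ D.Door (D.i w w' k) (D.lab w) (D.lab w') →
      D.Hi (D.i w w' k) (D.lab w) (D.lab w') := by
    intro k hk1 hk2 hnd
    rcases D.side_of (hat k hk2) hnd with h | h
    · exact h.1
    · exfalso
      have := hpos k hk1
      have h1 := h.2
      have h2 := D.hη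
      linarith
  have hSt : ∀ k, t ≤ k → k ≤ D.n →
      (D.Door (D.i w w' k) (D.lab w) (D.lab w') →
        ∀ e, D.Exit (D.lab w) (D.lab w') (D.i w w' k) e → comp e = comp (D.i w w' t)) ∧
      (¬ D.Door (D.i w w' k) (D.lab w) (D.lab w') → comp (D.i w w' k) = comp (D.i w w' t)) := by
    intro k hk
    induction k, hk using Nat.le_induction with
    | base =>
      intro _
      exact ⟨fun h => absurd h hHi.1, fun _ => rfl⟩
    | succ k hk ih =>
      intro hkn
      have hkn' : k ≤ D.n := by omega
      obtain ⟨ih1, ih2⟩ := ih hkn'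
      rcases D.hstep w w' hw k (by omega) with h | h
      · rw [← h]
        exact ⟨ih1, ih2⟩
      · refine ⟨fun hd' e he => ?_, fun hnd' => ?_⟩
        · by_cases hd : D.Door (D.i w w' k) (D.lab w) (D.lab w')
          · exact ih1 hd e ((D.exit_congr hd hd' h).2 he)
          · have hex : D.Exit (D.lab w) (D.lab w') (D.i w w' (k + 1)) (D.i w w' k) :=
              ⟨_, D.clus_refl hd', h.symm, hHik k hk hkn' hd⟩
            rw [D.exit_unique he hex]
            exact ih2 hd
        · by_cases hd : D.Door (D.i w w' k) (D.lab w) (D.lab w')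
          · refine ih1 hd _ ⟨_, D.clus_refl hd, h, hHik (k + 1) (by omega) hkn hnd'⟩
          · rw [← ih2 hd]
            exact (hcomp _ _ h (hdoor k hkn' hd) (hdoor (k + 1) hkn hnd')).symm
  have hend : D.i w w' D.n = D.i0 w' := by
    have h := D.hsym w w' hw 0 (Nat.zero_le _)
    rw [D.h0 _ _ hw.symm, Nat.sub_zero] at h
    exact h.symm
  have h1 := (hSt D.n ht le_rfl).2
  rw [hend] at h1
  exact (h1 ((D.i0_not_door hw).2.2.2 _ _)).symm

end Disc

end Pool.Agent.DB
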