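import Pool.Agent.DB.B.Pos

/-!
# Project DB (MP_db294d_gt), module DB-B-Walk: exits exist and are unique

PROOF PLAN.
`exit_walk`: on the `H`-edge `w w'` over `a b` start at the time `t` with `c a b - η ≤ t/n` and
`D.i w w' t` a door link. Induction on `n - t` (or `Nat.find` of the first `k > t` such that
`D.i w w' k` is not a door link of `a b`; it exists because `D.i w w' n = i0 w'` is no door link,
`i0_not_door`, `hsym`, `h0`). At every step `D.i w w' k = D.i w w' (k+1)` or adjacent; as long as the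
links are door links they stay in the same cluster. The first non-door link `e = D.i w w' k` has the
position `k/n ≥ c a b - η`, so by `side_of` it is on the `b`-side: `Hi e a b`.
`exit_exists`: the door link `s` has a position within `η` of the door: `exit_walk` gives the exit
on the `b`-side.
`exit_unique`: let `C` be the cluster of `s` (`C = {s' | Clus a b s s'}`, a finite set, use
`Set.toFinset` with classical decidability); `A.induce C` is connected (reachability in the induced
graph on the door links stays in `C`). All `s' ∈ C` have `deg ≤ 2` (`door_deg`), so `leave_count`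
gives `(leave A C).ncard + 2 |C| ≤ 2 |C| + 2`, i.e. at most two leaving darts. If
`Exit a b s e`, `Exit a b s e'` with `e ≠ e'` there are the two darts `(s₁, e)`, `(s₂, e')`
(`e ∉ C`: `e` is not a door link) and, by `exit_exists` with `a, b` exchanged (`door_symm`; the
clusters for `(a,b)` and `(b,a)` are the same since `Door s a b ↔ Door s b a`), a third one
`(s₃, e₃)` with `Hi e₃ b a`; `e₃ ≠ e, e'` by `hi_not_lo`. Three distinct elements: contradiction.
-/

namespace Pool.Agent.DB

open Set

private def wkCI {S : Type} (A : SimpleGraph S) (X : Set S) (s s' : S) : Prop :=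
  ∃ (h : s ∈ X) (h' : s' ∈ X), (A.induce X).Reachable ⟨s, h⟩ ⟨s', h'⟩

private theorem wkCI_step {S : Type} {A : SimpleGraph S} {X : Set S} {s s' s'' : S}
    (h : wkCI A X s s') (hd : s'' ∈ X) (had : A.Adj s' s'') : wkCI A X s s'' := by
  obtain ⟨h1, h2, h3⟩ := h
  refine ⟨h1, hd, h3.trans (SimpleGraph.Adj.reachable ?_)⟩
  exact had

private theorem wkCI_symm {S : Type} {A : SimpleGraph S} {X : Set S} {s s' : S}
    (h : wkCI A X s s') : wkCI A X s' s := by
  obtain ⟨h1, h2, h3⟩ := h
  exact ⟨h2, h1, h3.symm⟩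

private theorem wkCI_trans {S : Type} {A : SimpleGraph S} {X : Set S} {s s' s'' : S}
    (h : wkCI A X s s') (h' : wkCI A X s' s'') : wkCI A X s s'' := by
  obtain ⟨h1, h2, h3⟩ := h
  obtain ⟨h4, h5, h6⟩ := h'
  exact ⟨h1, h5, h3.trans h6⟩

private theorem wkCI_conn {S : Type} (A : SimpleGraph S) (X : Set S) (s : S) (hs : s ∈ X) :
    (A.induce {s' | wkCI A X s s'}).Connected := by
  have hself : wkCI A X s s := ⟨hs, hs, SimpleGraph.Reachable.refl _⟩
  have key : ∀ y : X, (A.induce X).Reachable ⟨s, hs⟩ y → ∀ hy : wkCI A X s y.1,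
      (A.induce {s' | wkCI A X s s'}).Reachable ⟨s, hself⟩ ⟨y.1, hy⟩ := by
    intro y hy
    rw [SimpleGraph.reachable_iff_reflTransGen] at hy
    induction hy with
    | refl =>
      intro _
      exact SimpleGraph.Reachable.refl _
    | @tail b c hab hbc ih =>
      intro hc
      have hb : wkCI A X s b.1 := ⟨hs, b.2, by
        rw [SimpleGraph.reachable_iff_reflTransGen]
        exact hab⟩
      refine (ih hb).trans (SimpleGraph.Adj.reachable ?_)
      exact hbc
  have key2 : ∀ z : {s' | wkCI A X s s'},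
      (A.induce {s' | wkCI A X s s'}).Reachable ⟨s, hself⟩ z := by
    rintro ⟨z, hz⟩
    obtain ⟨h1, h2, h3⟩ := hz
    exact key ⟨z, h2⟩ h3 ⟨h1, h2, h3⟩
  haveI : Nonempty {s' | wkCI A X s s'} := ⟨⟨s, hself⟩⟩
  exact ⟨fun x y => (key2 x).symm.trans (key2 y)⟩

namespace Disc

variable {V W S : Type} [Fintype V] [DecidableEq V] [Fintype W] [Fintype S] (D : Disc V W S)

theorem clus_symm {a b : V} {s s' : S} (h : D.Clus a b s s') : D.Clus b a s s' := by
  have hset : {s | D.Door s a b} = {s | D.Door s b a} := by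
    ext x
    exact ⟨fun h => door_symm D h, fun h => door_symm D h⟩
  have h1 : wkCI D.A {s | D.Door s a b} s s' := h
  rw [hset] at h1
  exact h1

theorem clus_refl {a b : V} {s : S} (h : D.Door s a b) : D.Clus a b s s :=
  ⟨h, h, SimpleGraph.Reachable.refl _⟩

theorem clus_step {a b : V} {s s' s'' : S} (h : D.Clus a b s s') (hd : D.Door s'' a b)
    (had : D.A.Adj s' s'') : D.Clus a b s s'' :=
  wkCI_step (A := D.A) (X := {s | D.Door s a b}) h hd had

private theorem wk_exit {a b : V} {s s' e : S} (h : D.Clus a b s' s) (he : D.Exit a b s e) :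
    D.Exit a b s' e := by
  obtain ⟨s₁, h1, h2, h3⟩ := he
  exact ⟨s₁, wkCI_trans (A := D.A) (X := {s | D.Door s a b}) h h1, h2, h3⟩

/-- exits of adjacent door links are the same -/
theorem exit_congr {a b : V} {s s' e : S} (h : D.Door s a b) (hd : D.Door s' a b)
    (had : D.A.Adj s s') : D.Exit a b s e ↔ D.Exit a b s' e :=
  ⟨fun he => wk_exit D (clus_step D (clus_refl D hd) h had.symm) he,
    fun he => wk_exit D (clus_step D (clus_refl D h) hd had) he⟩

theorem exit_walk {w w' : W} (hw : D.H.Adj w w') (t : ℕ) (ht : t ≤ D.n)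
    (hd : D.Door (D.i w w' t) (D.lab w) (D.lab w'))
    (hτ : D.c (D.lab w) (D.lab w') - D.η ≤ (t : ℝ) / D.n) :
    ∃ k, t < k ∧ k ≤ D.n ∧ D.Hi (D.i w w' k) (D.lab w) (D.lab w') ∧
      D.Exit (D.lab w) (D.lab w') (D.i w w' t) (D.i w w' k) := by
  have hend : D.i w w' D.n = D.i0 w' := by
    have h1 := D.hsym w w' hw 0 (Nat.zero_le _)
    rw [Nat.sub_zero] at h1
    rw [← h1]
    exact D.h0 w' w hw.symm
  have hnd := (i0_not_door D hw).2.2.2
  have hn : (0 : ℝ) < D.n := by exact_mod_cast D.hn
  have main : ∀ m t : ℕ, t + m = D.n → D.Door (D.i w w' t) (D.lab w) (D.lab w') →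
      D.c (D.lab w) (D.lab w') - D.η ≤ (t : ℝ) / D.n →
      ∃ k, t < k ∧ k ≤ D.n ∧ D.Hi (D.i w w' k) (D.lab w) (D.lab w') ∧
      D.Exit (D.lab w) (D.lab w') (D.i w w' t) (D.i w w' k) := by
    intro m
    induction m with
    | zero =>
      intro t htn hd _
      rw [add_zero] at htn
      rw [htn, hend] at hd
      exact absurd hd (hnd _ _)
    | succ m ih =>
      intro t htn hd hτ
      have hτ' : D.c (D.lab w) (D.lab w') - D.η ≤ ((t + 1 : ℕ) : ℝ) / D.n := by
        refine hτ.trans ?_
        gcongr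
        exact Nat.le_succ t
      have htn' : t + 1 + m = D.n := by omega
      rcases D.hstep w w' hw t (by omega) with he | ha
      · obtain ⟨k, h1, h2, h3, h4⟩ := ih (t + 1) htn' (by rw [← he]; exact hd) hτ'
        refine ⟨k, by omega, h2, h3, ?_⟩
        rw [he]
        exact h4
      · by_cases hD : D.Door (D.i w w' (t + 1)) (D.lab w) (D.lab w')
        · obtain ⟨k, h1, h2, h3, h4⟩ := ih (t + 1) htn' hD hτ'
          exact ⟨k, by omega, h2, h3, (exit_congr D hd hD ha).2 h4⟩
        · have hat : D.At (D.i w w' (t + 1)) (D.lab w) (D.lab w') (((t + 1 : ℕ) : ℝ) / D.n) :=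
            ⟨w, w', t + 1, hw, by omega, rfl, rfl, rfl, rfl⟩
          rcases side_of D hat hD with h1 | h1
          · exact ⟨t + 1, by omega, by omega, h1.1, _, clus_refl D hd, ha, h1.1⟩
          · exact absurd h1.2 (not_lt.2 hτ')
  exact main (D.n - t) t (by omega) hd hτ

theorem exit_exists {a b : V} {s : S} (h : D.Door s a b) : ∃ e, D.Exit a b s e := by
  obtain ⟨τ, ⟨w, w', t, hw, ht, hs, ha, hb, hτ⟩, hc⟩ := h
  subst hs ha hb
  have hc' := (abs_le.1 hc).1
  obtain ⟨k, -, -, -, h4⟩ := exit_walk D hw t ht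
    ⟨τ, ⟨w, w', t, hw, ht, rfl, rfl, rfl, hτ⟩, hc⟩ (by rw [← hτ]; linarith)
  exact ⟨_, h4⟩

theorem exit_unique {a b : V} {s e e' : S} (h : D.Exit a b s e) (h' : D.Exit a b s e') :
    e = e' := by
  classical
  by_contra hne
  have hds : D.Door s a b := by
    obtain ⟨s₁, ⟨h1, -, -⟩, -, -⟩ := h
    exact h1
  obtain ⟨e₃, he₃⟩ := exit_exists D (door_symm D hds)
  obtain ⟨s₁, h1, h2, h3⟩ := h
  obtain ⟨s₂, h4, h5, h6⟩ := h'
  obtain ⟨s₃, h7, h8, h9⟩ := he₃
  have h7' := clus_symm D h7
  set C : Finset S := Finset.univ.filter fun s' => D.Clus a b s s' with hC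
  have hCs : (C : Set S) = {s' | wkCI D.A {s | D.Door s a b} s s'} := by
    ext x
    simp only [hC, Finset.coe_filter, Finset.mem_univ, true_and, Set.mem_setOf_eq]
    exact Iff.rfl
  have hconn : (D.A.induce (C : Set S)).Connected := by
    rw [hCs]
    exact wkCI_conn D.A _ s hds
  have hlc := leave_count D.A D.hA C hconn
  have hmem : ∀ x, x ∈ C ↔ D.Clus a b s x := by
    intro x
    simp [hC]
  have hdeg : ∑ x ∈ C, deg D.A x ≤ ∑ _x ∈ C, 2 := by
    refine Finset.sum_le_sum fun x hx => ?_
    obtain ⟨-, h10, -⟩ := (hmem x).1 hx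
    exact door_deg D h10
  rw [Finset.sum_const, smul_eq_mul] at hdeg
  have hle : (leave D.A (C : Set S)).ncard ≤ 2 := by omega
  have hin : ∀ x y, D.Clus a b s x → D.A.Adj x y → ¬ D.Door y a b →
      (x, y) ∈ leave D.A (C : Set S) := by
    intro x y hx hxy hy
    refine ⟨(hmem x).2 hx, fun hyC => ?_, hxy⟩
    obtain ⟨-, h10, -⟩ := (hmem y).1 hyC
    exact hy h10
  have hlt : 2 < (leave D.A (C : Set S)).ncard := by
    rw [Set.two_lt_ncard_iff (Set.toFinite _)]
    refine ⟨(s₁, e), (s₂, e'), (s₃, e₃), hin _ _ h1 h2 h3.1, hin _ _ h4 h5 h6.1,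
      hin _ _ h7' h8 (fun hh => h9.1 (door_symm D hh)), ?_, ?_, ?_⟩
    · intro hh
      exact hne (congrArg Prod.snd hh)
    · intro hh
      have h10 : e = e₃ := congrArg Prod.snd hh
      rw [← h10] at h9
      exact hi_not_lo D h3 h9
    · intro hh
      have h10 : e' = e₃ := congrArg Prod.snd hh
      rw [← h10] at h9
      exact hi_not_lo D h6 h9
  omega

end Disc

end Pool.Agent.DB
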